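import Pool.Agent.Helper15.DAK.Stmts

/-!
# Row ALG: an operator which kills the traces of the kernel of a derivation
-/

open AlgebraicGeometry CategoryTheory TopologicalSpace Opposite

namespace Pool.Agent.Helper15.DAK

open Pool.Agent.Helper15.DAF

namespace S59

/-- products of operators which commute with a linear map -/
theorem list_comm {K L : Type} [Field K] [Field L] [Algebra ℂ K] [Algebra ℂ L] (tr : L → K)
    (n : ℕ) (F : Fin n → Module.End ℂ L) (G : Fin n → Module.End ℂ K)
    (h : ∀ i f, tr (F i f) = G i (tr f)) (f : L) :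
    tr ((List.ofFn F).prod f) = (List.ofFn G).prod (tr f) := by
  induction n with
  | zero => simp
  | succ n ih =>
    rw [List.ofFn_succ, List.ofFn_succ, List.prod_cons, List.prod_cons, Module.End.mul_apply,
      Module.End.mul_apply, h, ih (fun i => F i.succ) (fun i => G i.succ) fun i f => h i.succ f]

theorem pow_comm {K L : Type} [Field K] [Field L] [Algebra ℂ K] [Algebra ℂ L] (tr : L → K)
    (F : Module.End ℂ L) (G : Module.End ℂ K) (h : ∀ f, tr (F f) = G (tr f)) (k : ℕ) (f : L) :
    tr ((F ^ k) f) = (G ^ k) (tr f) := by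
  induction k generalizing f with
  | zero => simp
  | succ k ih =>
    rw [pow_succ, pow_succ, Module.End.mul_apply, Module.End.mul_apply, ih, h]

theorem tmon_mem {K : Type} [Field K] [Algebra ℂ K] {n : ℕ} (t : Fin n → Module.End ℂ K)
    (ht : ∀ i, IsDer (t i)) (α : Fin n → ℕ) : tmon t α ∈ DK K := by
  unfold tmon
  refine list_prod_mem fun x hx => ?_
  rw [List.mem_ofFn] at hx
  obtain ⟨i, rfl⟩ := hx
  have h1 : t i ∈ DK K := by
    unfold DK
    exact Algebra.subset_adjoin (Or.inr (ht i))
  exact pow_mem h1 _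

theorem card_B (n : ℕ) (i0 : Fin n) (m : ℕ) :
    ((Fintype.piFinset fun _ : Fin n => Finset.range (m + 1)).filter
      (fun β => β i0 = 0)).card ≤ (m + 1) ^ (n - 1) := by
  have h1 : ((Fintype.piFinset fun _ : Fin n => Finset.range (m + 1)).filter
      (fun β => β i0 = 0)) ⊆ Fintype.piFinset fun i : Fin n =>
        if i = i0 then {0} else Finset.range (m + 1) := by
    intro β hβ
    rw [Finset.mem_filter, Fintype.mem_piFinset] at hβ
    rw [Fintype.mem_piFinset]
    intro i
    by_cases h : i = i0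
    · subst h
      simp [hβ.2]
    · rw [if_neg h]
      exact hβ.1 i
  refine (Finset.card_le_card h1).trans (le_of_eq ?_)
  rw [Fintype.card_piFinset, ← Finset.mul_prod_erase Finset.univ _ (Finset.mem_univ i0),
    if_pos rfl, Finset.card_singleton, one_mul]
  rw [Finset.prod_congr rfl (g := fun _ => m + 1)]
  · rw [Finset.prod_const, Finset.card_erase_of_mem (Finset.mem_univ i0), Finset.card_univ,
      Fintype.card_fin]
  · intro i hi
    rw [if_neg (Finset.ne_of_mem_erase hi), Finset.card_range]

/-- a nontrivial relation with coefficients in the small field -/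
theorem exists_rel {K L : Type} [Field K] [Field L] [Algebra K L] [FiniteDimensional K L]
    {ι : Type} [DecidableEq ι] (A B : Finset ι) (c : ι → ι → L)
    (h : B.card * Module.finrank K L < A.card) :
    ∃ k : ι → K, (∃ α ∈ A, k α ≠ 0) ∧ ∀ β ∈ B, ∑ α ∈ A, k α • c α β = 0 := by
  let Φ : (A → K) →ₗ[K] (B → L) :=
    { toFun := fun k β => ∑ α : A, k α • c α β
      map_add' := fun k k' => by
        funext β
        simp [add_smul, Finset.sum_add_distrib]
      map_smul' := fun r k => by
        funext β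
        simp [Finset.smul_sum, smul_smul] }
  have h1 : LinearMap.ker Φ ≠ ⊥ := by
    apply LinearMap.ker_ne_bot_of_finrank_lt
    rw [Module.finrank_pi_fintype, Module.finrank_fintype_fun_eq_card, Finset.sum_const,
      Finset.card_univ, Fintype.card_coe, Fintype.card_coe, smul_eq_mul]
    exact h
  obtain ⟨κ, hκ, hne⟩ := Submodule.exists_mem_ne_zero_of_ne_bot h1
  refine ⟨fun α => if hα : α ∈ A then κ ⟨α, hα⟩ else 0, ?_, ?_⟩
  · by_contra hc
    apply hne
    funext α
    by_contra h2
    apply hc
    refine ⟨α.1, α.2, ?_⟩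
    have e : (fun α => if hα : α ∈ A then κ ⟨α, hα⟩ else 0) α.1 = κ α := dif_pos α.2
    rw [e]
    exact h2
  · intro β hβ
    have h3 := congrFun (LinearMap.mem_ker.mp hκ) ⟨β, hβ⟩
    have h4 : ∑ α : A, κ α • c α β = 0 := h3
    rw [← Finset.sum_coe_sort A]
    rw [← h4]
    refine Finset.sum_congr rfl fun α _ => ?_
    have e : (fun α => if hα : α ∈ A then κ ⟨α, hα⟩ else 0) α.1 = κ α := dif_pos α.2
    rw [e]

end S59

theorem st_ALG2 (hLIFTD : ST_LIFTD) (hTRD : ST_TRD) (hCOORDL : ST_COORDL) (hSPAN : ST_SPAN)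
    (hLIND : ST_LIND) : ST_ALG := by
  classical
  intro K L _ _ _ _ _ _ _ n t y hf v hv hv0
  choose T hT hTt using fun i => hLIFTD K L (t i) (hf.1 i)
  obtain ⟨hcomm, hcoord⟩ := hCOORDL K L n t y hf T hT hTt
  have hvT := hcoord v hv
  obtain ⟨i0, hi0⟩ : ∃ i0, v (algebraMap K L (y i0)) ≠ 0 := by
    by_contra hc
    push Not at hc
    apply hv0
    rw [hvT]
    refine Finset.sum_eq_zero fun i _ => ?_
    rw [hc i]
    refine LinearMap.ext fun z => ?_
    change (0 : L) * T i z = 0
    rw [zero_mul]
  have hn : 0 < n := i0.pos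
  obtain ⟨M, hM⟩ : ∃ M : ℕ, M = Module.finrank K L * n ^ (n - 1) := ⟨_, rfl⟩
  obtain ⟨A, hA⟩ : ∃ A : Finset (Fin n → ℕ),
      A = Fintype.piFinset fun _ : Fin n => Finset.range (M + 1) := ⟨_, rfl⟩
  obtain ⟨B, hB⟩ : ∃ B : Finset (Fin n → ℕ),
      B = (Fintype.piFinset fun _ : Fin n => Finset.range (n * M + 1)).filter
        (fun β => β i0 = 0) := ⟨_, rfl⟩
  have hcA : A.card = (M + 1) ^ n := by
    rw [hA, Fintype.card_piFinset, Finset.prod_const, Finset.card_range, Finset.card_univ,
      Fintype.card_fin]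
  have hcB : B.card ≤ (n * M + 1) ^ (n - 1) := by
    rw [hB]
    exact S59.card_B n i0 (n * M)
  have hdeg : ∀ α ∈ A, ∑ i, α i ≤ n * M := by
    intro α hα
    rw [hA, Fintype.mem_piFinset] at hα
    calc ∑ i, α i ≤ ∑ _i : Fin n, M :=
          Finset.sum_le_sum fun i _ => Nat.lt_succ_iff.mp (Finset.mem_range.mp (hα i))
      _ = n * M := by rw [Finset.sum_const, Finset.card_univ, Fintype.card_fin, smul_eq_mul]
  have hsp : ∀ α : Fin n → ℕ, ∃ c : (Fin n → ℕ) → L, α ∈ A → ∀ f : L,
      (∑ i, v (algebraMap K L (y i)) * T i f = 0) → tmon T α f = ∑ β ∈ B, c β * tmon T β f := by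
    intro α
    by_cases hα : α ∈ A
    · obtain ⟨c, hc⟩ := hSPAN L n T (fun i => v (algebraMap K L (y i))) i0 hT hcomm hi0 (n * M) α
        (hdeg α hα)
      refine ⟨c, fun _ => ?_⟩
      rw [hB]
      exact hc
    · exact ⟨fun _ => 0, fun h => absurd h hα⟩
  choose c hc using hsp
  have hlt : B.card * Module.finrank K L < A.card := by
    rw [hcA]
    have h1 : B.card * Module.finrank K L ≤ (n * (M + 1)) ^ (n - 1) * Module.finrank K L := by
      refine Nat.mul_le_mul_right _ (hcB.trans (Nat.pow_le_pow_left ?_ _))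
      nlinarith
    have h2 : (n * (M + 1)) ^ (n - 1) * Module.finrank K L = (M + 1) ^ (n - 1) * M := by
      rw [mul_pow, hM]
      ring
    have h3 : (M + 1) ^ n = (M + 1) ^ (n - 1) * (M + 1) := by
      rw [← pow_succ]
      congr 1
      omega
    rw [h3]
    have h4 : 0 < (M + 1) ^ (n - 1) := by positivity
    nlinarith
  obtain ⟨k, ⟨α0, hα0, hk0⟩, hk⟩ := S59.exists_rel (K := K) A B c hlt
  refine ⟨∑ α ∈ A, mulOp (k α) * tmon t α, ?_, ?_, ?_⟩
  · refine sum_mem fun α _ => mul_mem ?_ (S59.tmon_mem t hf.1 α)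
    unfold DK
    exact Algebra.subset_adjoin (Or.inl ⟨_, rfl⟩)
  · intro h0
    exact hk0 (hLIND K n t y hf A k h0 α0 hα0)
  · intro f hvf
    have h1 : ∑ i, v (algebraMap K L (y i)) * T i f = 0 := by
      have h := LinearMap.congr_fun hvT f
      rw [LinearMap.sum_apply, hvf] at h
      exact h.symm
    have htr : ∀ α, Algebra.trace K L (tmon T α f) = tmon t α (Algebra.trace K L f) := by
      intro α
      unfold tmon
      exact S59.list_comm (fun x => Algebra.trace K L x) n _ _ (fun i g =>
        S59.pow_comm (fun x => Algebra.trace K L x) (T i) (t i)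
          (fun g => hTRD K L (t i) (T i) (hf.1 i) (hT i) (hTt i) g) (α i) g) f
    rw [LinearMap.sum_apply]
    calc ∑ α ∈ A, (mulOp (k α) * tmon t α) (Algebra.trace K L f)
        = ∑ α ∈ A, Algebra.trace K L (k α • tmon T α f) := by
          refine Finset.sum_congr rfl fun α _ => ?_
          change k α * tmon t α (Algebra.trace K L f) = _
          rw [map_smul, htr, smul_eq_mul]
      _ = Algebra.trace K L (∑ α ∈ A, k α • tmon T α f) := (map_sum _ _ _).symm
      _ = Algebra.trace K L (∑ α ∈ A, ∑ β ∈ B, (k α • c α β) * tmon T β f) := by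
          congr 1
          refine Finset.sum_congr rfl fun α hα => ?_
          rw [hc α hα f h1, Finset.smul_sum]
          exact Finset.sum_congr rfl fun β _ => (smul_mul_assoc _ _ _).symm
      _ = Algebra.trace K L (∑ β ∈ B, (∑ α ∈ A, k α • c α β) * tmon T β f) := by
          congr 1
          rw [Finset.sum_comm]
          exact Finset.sum_congr rfl fun β _ => (Finset.sum_mul _ _ _).symm
      _ = 0 := by
          rw [Finset.sum_eq_zero, map_zero]
          intro β hβ
          rw [hk β hβ, zero_mul]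

end Pool.Agent.Helper15.DAK
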