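import Pool.Agent.Helper15.DAK.Stmts

/-!
# Row COORDL: lifted coordinates are coordinates of the extension
-/

open AlgebraicGeometry CategoryTheory TopologicalSpace Opposite

namespace Pool.Agent.Helper15.DAK

open Pool.Agent.Helper15.DAF

namespace S59

/-- a derivation of a finite extension which vanishes on the ground field is zero -/
theorem der_zero {K L : Type} [Field K] [Field L] [Algebra ℂ K] [Algebra ℂ L] [Algebra K L]
    [IsScalarTower ℂ K L] [FiniteDimensional K L] (w : Module.End ℂ L) (hw : IsDer w)
    (h0 : ∀ a : K, w (algebraMap K L a) = 0) : w = 0 := by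
  have hc : CharZero K := charZero_of_injective_algebraMap (algebraMap ℂ K).injective
  let D : Derivation K L L := Derivation.mk'
    { toFun := fun x => w x
      map_add' := fun a b => map_add w a b
      map_smul' := fun a x => by
        change w (a • x) = a • w x
        rw [Algebra.smul_def, hw, h0, mul_zero, add_zero, Algebra.smul_def] }
    (fun a b => by
      change w (a * b) = a • w b + b • w a
      rw [hw, smul_eq_mul, smul_eq_mul])
  refine LinearMap.ext fun x => ?_
  have h1 := D.map_aeval (minpoly K x) x
  rw [minpoly.aeval, map_zero] at h1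
  have h2 : Polynomial.aeval x (Polynomial.derivative (minpoly K x)) ≠ 0 :=
    (Algebra.IsSeparable.isSeparable K x).aeval_derivative_ne_zero (minpoly.aeval K x)
  rw [smul_eq_mul] at h1
  have h3 : D x = 0 := (mul_eq_zero.mp h1.symm).resolve_left h2
  exact h3

theorem isDer_one {F : Type} [Field F] [Algebra ℂ F] {d : Module.End ℂ F} (hd : IsDer d) :
    d 1 = 0 := by
  have h := hd 1 1
  rw [mul_one, one_mul] at h
  linear_combination -h

theorem isDer_add {F : Type} [Field F] [Algebra ℂ F] {d e : Module.End ℂ F} (hd : IsDer d)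
    (he : IsDer e) : IsDer (d + e) := by
  intro a b
  rw [LinearMap.add_apply, LinearMap.add_apply, LinearMap.add_apply, hd, he]
  ring

theorem isDer_sub {F : Type} [Field F] [Algebra ℂ F] {d e : Module.End ℂ F} (hd : IsDer d)
    (he : IsDer e) : IsDer (d - e) := by
  intro a b
  rw [LinearMap.sub_apply, LinearMap.sub_apply, LinearMap.sub_apply, hd, he]
  ring

theorem isDer_mulOp {F : Type} [Field F] [Algebra ℂ F] {d : Module.End ℂ F} (hd : IsDer d)
    (c : F) : IsDer (mulOp c * d) := by
  intro a b
  change c * d (a * b) = a * (c * d b) + b * (c * d a)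
  rw [hd]
  ring

theorem isDer_sum {F : Type} [Field F] [Algebra ℂ F] {ι : Type} (s : Finset ι)
    (d : ι → Module.End ℂ F) (hd : ∀ i, IsDer (d i)) : IsDer (∑ i ∈ s, d i) := by
  intro a b
  rw [LinearMap.sum_apply, LinearMap.sum_apply, LinearMap.sum_apply, Finset.mul_sum,
    Finset.mul_sum, ← Finset.sum_add_distrib]
  exact Finset.sum_congr rfl fun i _ => hd i a b

theorem isDer_comm {F : Type} [Field F] [Algebra ℂ F] {d e : Module.End ℂ F} (hd : IsDer d)
    (he : IsDer e) : IsDer (d * e - e * d) := by
  intro a b
  change d (e (a * b)) - e (d (a * b)) = a * (d (e b) - e (d b)) + b * (d (e a) - e (d a))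
  rw [he, hd, map_add, map_add, hd, hd, he, he]
  ring

/-- a derivation of the extension on the ground field -/
theorem der_on {K L : Type} [Field K] [Field L] [Algebra ℂ K] [Algebra ℂ L] [Algebra K L]
    [IsScalarTower ℂ K L] [FiniteDimensional K L] (n : ℕ) (t : Fin n → Module.End ℂ K)
    (y : Fin n → K) (hf : IsFCoord n t y) (v : Module.End ℂ L) (hv : IsDer v) (a : K) :
    v (algebraMap K L a) = ∑ i, v (algebraMap K L (y i)) * algebraMap K L (t i a) := by
  obtain ⟨b, _⟩ : ∃ b : Module.Basis (Fin (Module.finrank K L)) K L, True :=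
    ⟨Module.finBasis K L, trivial⟩
  let d : Fin (Module.finrank K L) → Module.End ℂ K := fun k =>
    (LinearMap.restrictScalars ℂ (b.coord k)) ∘ₗ v ∘ₗ (IsScalarTower.toAlgHom ℂ K L).toLinearMap
  have hd : ∀ k (a : K), d k a = b.repr (v (algebraMap K L a)) k := fun k a => rfl
  have hder : ∀ k, IsDer (d k) := by
    intro k a c
    rw [hd, hd, hd, map_mul, hv, ← Algebra.smul_def, ← Algebra.smul_def, map_add, map_smul,
      map_smul]
    rfl
  have hs : ∀ a : K, v (algebraMap K L a) = ∑ k, d k a • b k := fun a =>
    (b.sum_repr (v (algebraMap K L a))).symm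
  have hk : ∀ k, d k a = ∑ i, d k (y i) * t i a := by
    intro k
    have h := LinearMap.congr_fun (hf.2.2 (d k) (hder k)) a
    rw [LinearMap.sum_apply] at h
    exact h
  calc v (algebraMap K L a) = ∑ k, d k a • b k := hs a
    _ = ∑ k, ∑ i, (d k (y i) * t i a) • b k := by
        refine Finset.sum_congr rfl fun k _ => ?_
        rw [hk k, Finset.sum_smul]
    _ = ∑ i, ∑ k, (d k (y i) * t i a) • b k := Finset.sum_comm
    _ = ∑ i, v (algebraMap K L (y i)) * algebraMap K L (t i a) := by
        refine Finset.sum_congr rfl fun i _ => ?_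
        rw [hs (y i), Finset.sum_mul]
        refine Finset.sum_congr rfl fun k _ => ?_
        rw [Algebra.smul_def, Algebra.smul_def, map_mul]
        ring

end S59

theorem st_COORDL : ST_COORDL := by
  intro K L _ _ _ _ _ _ _ n t y hf T hT hTt
  constructor
  · intro i j
    have h1 : T i * T j - T j * T i = 0 := by
      apply S59.der_zero (K := K) _ (S59.isDer_comm (hT i) (hT j))
      have h2 : t i * t j - t j * t i = 0 := by
        rw [hf.2.2 _ (S59.isDer_comm (hf.1 i) (hf.1 j))]
        refine Finset.sum_eq_zero fun k _ => ?_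
        have h3 : (t i * t j - t j * t i) (y k) = 0 := by
          change t i (t j (y k)) - t j (t i (y k)) = 0
          rw [hf.2.1, hf.2.1]
          have e1 := S59.isDer_one (hf.1 i)
          have e2 := S59.isDer_one (hf.1 j)
          split_ifs <;> simp [e1, e2]
        rw [h3]
        refine LinearMap.ext fun z => ?_
        change (0 : K) * t k z = 0
        rw [zero_mul]
      intro a
      change T i (T j (algebraMap K L a)) - T j (T i (algebraMap K L a)) = 0
      rw [hTt, hTt, hTt, hTt, ← map_sub]
      have h4 : t i (t j a) - t j (t i a) = 0 := LinearMap.congr_fun h2 a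
      rw [h4, map_zero]
    exact sub_eq_zero.mp h1
  · intro v hv
    have h1 : v - ∑ i, mulOp (v (algebraMap K L (y i))) * T i = 0 := by
      apply S59.der_zero (K := K) _ (S59.isDer_sub hv
        (S59.isDer_sum _ _ fun i => S59.isDer_mulOp (hT i) _))
      intro a
      rw [LinearMap.sub_apply, LinearMap.sum_apply, S59.der_on n t y hf v hv a, sub_eq_zero]
      refine Finset.sum_congr rfl fun i _ => ?_
      change _ = v (algebraMap K L (y i)) * T i (algebraMap K L a)
      rw [hTt]
    exact sub_eq_zero.mp h1

end Pool.Agent.Helper15.DAK
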