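import Pool.Agent.Helper15.DAK.Stmts

/-!
# Row SPAN: monomials on the kernel of a derivation
-/

open AlgebraicGeometry CategoryTheory TopologicalSpace Opposite

namespace Pool.Agent.Helper15.DAK

open Pool.Agent.Helper15.DAF

namespace S59

/-- raise one exponent -/
def up {n : ℕ} (β : Fin n → ℕ) (j : Fin n) : Fin n → ℕ := fun i => if i = j then β i + 1 else β i

theorem mul_ofFn {M : Type} [Monoid M] (n : ℕ) (F : Fin n → M) (hc : ∀ i j, F i * F j = F j * F i)
    (β : Fin n → ℕ) (j : Fin n) : F j * (List.ofFn fun i => F i ^ β i).prod =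
      (List.ofFn fun i => F i ^ up β j i).prod := by
  induction n with
  | zero => exact j.elim0
  | succ n ih =>
    rw [List.ofFn_succ, List.ofFn_succ, List.prod_cons, List.prod_cons]
    refine Fin.cases ?_ (fun j' => ?_) j
    · have e1 : up β 0 0 = β 0 + 1 := if_pos rfl
      have e2 : (fun i : Fin n => F i.succ ^ up β 0 i.succ) = fun i : Fin n => F i.succ ^ β i.succ := by
        funext i
        have : up β 0 i.succ = β i.succ := if_neg (Fin.succ_ne_zero i)
        rw [this]
      rw [e1, e2, pow_succ', mul_assoc]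
    · have e1 : up β j'.succ 0 = β 0 := if_neg (Fin.succ_ne_zero j').symm
      have e2 : (fun i : Fin n => F i.succ ^ up β j'.succ i.succ) =
          fun i : Fin n => F i.succ ^ up (fun i => β i.succ) j' i := by
        funext i
        have : up β j'.succ i.succ = up (fun i => β i.succ) j' i := by
          unfold up
          simp only [Fin.succ_inj]
        rw [this]
      rw [e1, e2, ← ih (fun i => F i.succ) (fun i k => hc i.succ k.succ) (fun i => β i.succ) j',
        ← mul_assoc, ← mul_assoc]
      congr 1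
      exact (Commute.pow_right (hc j'.succ 0) (β 0)).eq

theorem mul_tmon {L : Type} [Field L] [Algebra ℂ L] {n : ℕ} (T : Fin n → Module.End ℂ L)
    (hc : ∀ i j, T i * T j = T j * T i) (β : Fin n → ℕ) (j : Fin n) :
    T j * tmon T β = tmon T (up β j) :=
  mul_ofFn n T hc β j

theorem tmon_comm {L : Type} [Field L] [Algebra ℂ L] {n : ℕ} (T : Fin n → Module.End ℂ L)
    (hc : ∀ i j, T i * T j = T j * T i) (β : Fin n → ℕ) (j : Fin n) :
    T j * tmon T β = tmon T β * T j := by
  unfold tmon
  have h : Commute (T j) ((List.ofFn fun i => T i ^ β i).prod) := by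
    apply Commute.list_prod_right
    intro x hx
    rw [List.mem_ofFn] at hx
    obtain ⟨i, rfl⟩ := hx
    exact Commute.pow_right (hc j i) _
  exact h.eq

theorem tmon_zero {L : Type} [Field L] [Algebra ℂ L] {n : ℕ} (T : Fin n → Module.End ℂ L)
    (β : Fin n → ℕ) (h : ∀ i, β i = 0) : tmon T β = 1 := by
  unfold tmon
  apply List.prod_eq_one
  intro x hx
  rw [List.mem_ofFn] at hx
  obtain ⟨i, rfl⟩ := hx
  rw [h i, pow_zero]

/-- an exponent which is not zero comes from a smaller one -/
theorem down {n : ℕ} (β : Fin n → ℕ) (j : Fin n) (h : β j ≠ 0) :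
    ∃ γ : Fin n → ℕ, β = up γ j ∧ ∑ i, β i = ∑ i, γ i + 1 ∧ ∀ i, γ i ≤ β i := by
  refine ⟨fun i => if i = j then β i - 1 else β i, ?_, ?_, ?_⟩
  · funext i
    unfold up
    by_cases hi : i = j
    · subst hi
      simp only [if_true]
      omega
    · simp only [if_neg hi]
  · rw [← Finset.add_sum_erase _ _ (Finset.mem_univ j),
      ← Finset.add_sum_erase _ (fun i => if i = j then β i - 1 else β i) (Finset.mem_univ j),
      if_pos rfl]
    have : ∑ x ∈ Finset.univ.erase j, (if x = j then β x - 1 else β x) =
        ∑ x ∈ Finset.univ.erase j, β x :=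
      Finset.sum_congr rfl fun x hx => if_neg (Finset.ne_of_mem_erase hx)
    rw [this]
    omega
  · intro i
    by_cases hi : i = j
    · simp only [if_pos hi]
      omega
    · simp only [if_neg hi]
      exact le_rfl

theorem sum_up {n : ℕ} (γ : Fin n → ℕ) (j : Fin n) : ∑ i, up γ j i = ∑ i, γ i + 1 := by
  unfold up
  have : ∀ i, (if i = j then γ i + 1 else γ i) = γ i + if i = j then 1 else 0 := by
    intro i
    split_ifs <;> rfl
  simp only [this, Finset.sum_add_distrib, Finset.sum_ite_eq', Finset.mem_univ, if_true]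

/-- combinations of monomials of degree at most `k` without the coordinate `i0` -/
def MM {L : Type} [Field L] [Algebra ℂ L] {n : ℕ} (T : Fin n → Module.End ℂ L) (i0 : Fin n)
    (k : ℕ) : Submodule L (L →ₗ[ℂ] L) :=
  Submodule.span L {P | ∃ β : Fin n → ℕ, ∑ i, β i ≤ k ∧ β i0 = 0 ∧ P = tmon T β}

theorem MM_mono {L : Type} [Field L] [Algebra ℂ L] {n : ℕ} (T : Fin n → Module.End ℂ L)
    (i0 : Fin n) {k l : ℕ} (h : k ≤ l) : MM T i0 k ≤ MM T i0 l := by
  apply Submodule.span_mono
  rintro P ⟨β, h1, h2, h3⟩
  exact ⟨β, h1.trans h, h2, h3⟩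

theorem der_smul {L : Type} [Field L] [Algebra ℂ L] {d : Module.End ℂ L} (hd : IsDer d) (c : L)
    (P : Module.End ℂ L) : d * (c • P) = d c • P + c • (d * P) := by
  refine LinearMap.ext fun z => ?_
  change d (c * P z) = d c * P z + c * d (P z)
  rw [hd]
  ring

theorem smul_mul' {L : Type} [Field L] [Algebra ℂ L] (c : L) (P Q : Module.End ℂ L) :
    (c • P) * Q = c • (P * Q) := rfl

theorem MM_left {L : Type} [Field L] [Algebra ℂ L] {n : ℕ} (T : Fin n → Module.End ℂ L)
    (hT : ∀ i, IsDer (T i)) (hc : ∀ i j, T i * T j = T j * T i) (i0 j : Fin n) (hj : j ≠ i0)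
    (k : ℕ) (P : Module.End ℂ L) (hP : P ∈ MM T i0 k) : T j * P ∈ MM T i0 (k + 1) := by
  unfold MM at hP
  induction hP using Submodule.span_induction with
  | mem P hP =>
    obtain ⟨β, h1, h2, rfl⟩ := hP
    rw [mul_tmon T hc]
    refine Submodule.subset_span ⟨up β j, ?_, ?_, rfl⟩
    · rw [sum_up]
      omega
    · unfold up
      rw [if_neg hj.symm, h2]
  | zero => rw [mul_zero]; exact zero_mem _
  | add P Q _ _ h1 h2 => rw [mul_add]; exact add_mem h1 h2
  | smul c P hP h =>
    rw [der_smul (hT j)]
    exact add_mem (Submodule.smul_mem _ _ (MM_mono T i0 (Nat.le_succ k) hP))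
      (Submodule.smul_mem _ _ h)

theorem MM_right {L : Type} [Field L] [Algebra ℂ L] {n : ℕ} (T : Fin n → Module.End ℂ L)
    (hT : ∀ i, IsDer (T i)) (hc : ∀ i j, T i * T j = T j * T i) (i0 i : Fin n) (hi : i ≠ i0)
    (b : L) (k : ℕ) : ∀ β : Fin n → ℕ, ∑ i, β i ≤ k → β i0 = 0 →
      tmon T β * (b • T i) ∈ MM T i0 (k + 1) := by
  induction k with
  | zero =>
    intro β h1 h2
    have h3 : ∀ i, β i = 0 := fun i =>
      Nat.le_zero.mp ((Finset.single_le_sum (fun _ _ => Nat.zero_le _) (Finset.mem_univ i)).trans h1)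
    rw [tmon_zero T β h3, one_mul]
    apply Submodule.smul_mem
    have h4 : T i = tmon T (up β i) := by
      rw [← mul_tmon T hc, tmon_zero T β h3, mul_one]
    refine Submodule.subset_span ⟨up β i, ?_, ?_, h4⟩
    · rw [sum_up]
      omega
    · unfold up
      rw [if_neg hi.symm, h2]
  | succ k ih =>
    intro β h1 h2
    by_cases h0 : ∃ j, β j ≠ 0
    · obtain ⟨j, hj⟩ := h0
      obtain ⟨γ, h3, h4, h5⟩ := down β j hj
      have hj0 : j ≠ i0 := by
        rintro rfl
        exact hj h2
      rw [h3, ← mul_tmon T hc, mul_assoc]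
      refine MM_left T hT hc i0 j hj0 (k + 1) _ (ih γ (by omega) ?_)
      have := h5 i0
      omega
    · have h3 : ∀ i, β i = 0 := fun i => by
        by_contra h
        exact h0 ⟨i, h⟩
      refine MM_mono T i0 (by omega : k + 1 ≤ k + 1 + 1) (ih β ?_ h2)
      simp [h3]

end S59

theorem st_SPAN2 : ST_SPAN := by
  intro L _ _ n T a i0 hT hc ha m α hα
  have key : ∀ (k : ℕ) (α : Fin n → ℕ), ∑ i, α i ≤ k → ∃ Q ∈ S59.MM T i0 k, ∀ f : L,
      (∑ i, a i * T i f = 0) → tmon T α f = Q f := by
    intro k
    induction k with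
    | zero =>
      intro α hα
      have h3 : ∀ i, α i = 0 := fun i =>
        Nat.le_zero.mp ((Finset.single_le_sum (fun _ _ => Nat.zero_le _)
          (Finset.mem_univ i)).trans hα)
      exact ⟨tmon T α, Submodule.subset_span ⟨α, hα, h3 i0, rfl⟩, fun f _ => rfl⟩
    | succ k ih =>
      intro α hα
      by_cases h0 : ∃ j, α j ≠ 0
      · obtain ⟨j, hj⟩ := h0
        obtain ⟨γ, h3, h4, h5⟩ := S59.down α j hj
        obtain ⟨Q, hQ, hQf⟩ := ih γ (by omega)
        rw [h3, ← S59.mul_tmon T hc]
        by_cases hj0 : j = i0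
        · subst hj0
          have hR : ∀ f : L, (∑ i, a i * T i f = 0) →
              T j f = (∑ i ∈ Finset.univ.erase j, (-(a j)⁻¹ * a i) • T i) f := by
            intro f hf
            rw [← Finset.add_sum_erase _ _ (Finset.mem_univ j)] at hf
            rw [LinearMap.sum_apply]
            have e : ∀ i, ((-(a j)⁻¹ * a i) • T i) f = -(a j)⁻¹ * (a i * T i f) := by
              intro i
              change (-(a j)⁻¹ * a i) * T i f = _
              ring
            simp only [e]
            rw [← Finset.mul_sum]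
            have h6 : ∑ i ∈ Finset.univ.erase j, a i * T i f = -(a j * T j f) := by
              linear_combination hf
            rw [h6]
            field_simp
          have hQ2 : ∃ Q2 ∈ S59.MM T j (k + 1), ∀ f : L, (∑ i, a i * T i f = 0) →
              (T j * Q) f = Q2 f := by
            clear hQf
            unfold S59.MM at hQ
            induction hQ using Submodule.span_induction with
            | mem P hP =>
              obtain ⟨β, h7, h8, rfl⟩ := hP
              refine ⟨tmon T β * ∑ i ∈ Finset.univ.erase j, (-(a j)⁻¹ * a i) • T i, ?_, ?_⟩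
              · rw [Finset.mul_sum]
                exact sum_mem fun i hi => S59.MM_right T hT hc j i (Finset.ne_of_mem_erase hi) _ k
                  β h7 h8
              · intro f hf
                rw [S59.tmon_comm T hc, Module.End.mul_apply, Module.End.mul_apply, hR f hf]
            | zero => exact ⟨0, zero_mem _, fun f _ => by rw [mul_zero]⟩
            | add P Q _ _ h7 h8 =>
              obtain ⟨P2, h9, h10⟩ := h7
              obtain ⟨Q2, h11, h12⟩ := h8
              refine ⟨P2 + Q2, add_mem h9 h11, fun f hf => ?_⟩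
              rw [mul_add, LinearMap.add_apply, LinearMap.add_apply, h10 f hf, h12 f hf]
            | smul c P hP h7 =>
              obtain ⟨P2, h9, h10⟩ := h7
              refine ⟨T j c • P + c • P2, add_mem (Submodule.smul_mem _ _
                (S59.MM_mono T j (Nat.le_succ k) hP)) (Submodule.smul_mem _ _ h9),
                fun f hf => ?_⟩
              rw [S59.der_smul (hT j)]
              change T j c * P f + c * (T j * P) f = T j c * P f + c * P2 f
              rw [h10 f hf]
          obtain ⟨Q2, hQ2, hQ2f⟩ := hQ2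
          refine ⟨Q2, hQ2, fun f hf => ?_⟩
          rw [← hQ2f f hf, Module.End.mul_apply, Module.End.mul_apply, hQf f hf]
        · refine ⟨T j * Q, S59.MM_left T hT hc i0 j hj0 k Q hQ, fun f hf => ?_⟩
          rw [Module.End.mul_apply, Module.End.mul_apply, hQf f hf]
      · have h3 : ∀ i, α i = 0 := fun i => by
          by_contra h
          exact h0 ⟨i, h⟩
        exact ⟨tmon T α, Submodule.subset_span ⟨α, hα, h3 i0, rfl⟩, fun f _ => rfl⟩
  obtain ⟨Q, hQ, hQf⟩ := key m α hα
  have hfin : ∃ c : (Fin n → ℕ) → L, ∀ f : L, Q f =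
      ∑ β ∈ (Fintype.piFinset fun _ : Fin n => Finset.range (m + 1)).filter
        (fun β => β i0 = 0), c β * tmon T β f := by
    clear hQf
    unfold S59.MM at hQ
    induction hQ using Submodule.span_induction with
    | mem P hP =>
      obtain ⟨β, h7, h8, rfl⟩ := hP
      refine ⟨fun γ => if γ = β then 1 else 0, fun f => ?_⟩
      rw [Finset.sum_eq_single β]
      · beta_reduce
        rw [if_pos rfl, one_mul]
      · intro γ _ hγ
        beta_reduce
        rw [if_neg hγ, zero_mul]
      · intro h
        exfalso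
        apply h
        rw [Finset.mem_filter, Fintype.mem_piFinset]
        refine ⟨fun i => ?_, h8⟩
        rw [Finset.mem_range]
        have := Finset.single_le_sum (f := β) (fun _ _ => Nat.zero_le _) (Finset.mem_univ i)
        omega
    | zero => exact ⟨fun _ => 0, fun f => by simp⟩
    | add P Q _ _ h7 h8 =>
      obtain ⟨c, h9⟩ := h7
      obtain ⟨c2, h10⟩ := h8
      refine ⟨fun γ => c γ + c2 γ, fun f => ?_⟩
      rw [LinearMap.add_apply, h9 f, h10 f, ← Finset.sum_add_distrib]
      exact Finset.sum_congr rfl fun γ _ => (add_mul _ _ _).symm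
    | smul r P _ h7 =>
      obtain ⟨c, h9⟩ := h7
      refine ⟨fun γ => r * c γ, fun f => ?_⟩
      change r * P f = _
      rw [h9 f, Finset.mul_sum]
      exact Finset.sum_congr rfl fun γ _ => (mul_assoc _ _ _).symm
  obtain ⟨c, hcf⟩ := hfin
  exact ⟨c, fun f hf => by rw [hQf f hf, hcf f]⟩

end Pool.Agent.Helper15.DAK
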